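import Pool.Agent.Helper27.UC.Goals5
import Pool.Agent.Helper90.UC.GDR

/-!
PROJECT UC (MP_d3128a_ag), packet RGG (helper91).
-/

set_option autoImplicit false

noncomputable section

namespace Pool.Agent.Helper91.UC.RGG

open Pool.Agent.Helper27.UC

theorem t (hC : S_CNV) : S_RGG := by
  intro ι _ d k M I a N T hI hT hN hk hc hx h2 hM
  have hcard : 0 < I.card := Finset.card_pos.2 hI
  obtain ⟨f, hf⟩ : ∃ f : ι → Fin I.card, ∀ i (h : i ∈ I), f i = I.equivFin ⟨i, h⟩ := by
    refine ⟨fun i => if h : i ∈ I then I.equivFin ⟨i, h⟩ else ⟨0, hcard⟩, fun i h => ?_⟩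
    simp [h]
  have hfs : ∀ i ∈ I, (I.equivFin.symm (f i) : ι) = i := by
    intro i h
    rw [hf i h, Equiv.symm_apply_apply]
  have hmem : ∀ l, (I.equivFin.symm l : ι) ∈ I := fun l => (I.equivFin.symm l).2
  have e1 : (T.map (fun p => (f p.1, p.2))).map Prod.snd = T.map Prod.snd := by
    rw [Multiset.map_map]
    rfl
  rw [← e1]
  refine Pool.Agent.Helper90.UC.rgT hC k d (T.map (fun p => (f p.1, p.2)))
    (fun l => a (I.equivFin.symm l)) (fun l => N (I.equivFin.symm l)) M
    ((T.map fun p => (p.2 + 1).choose 2).sum) ?_ ?_ hk hc ?_ ?_ ?_ ?_ ?_ hM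
  · intro l
    rw [Multiset.filter_map, Multiset.card_map, ← hN _ (hmem l)]
    congr 1
    apply Multiset.filter_congr
    intro p hp
    simp only [Function.comp]
    constructor
    · intro h
      rw [← h, hfs _ (hT p hp).1]
    · intro h
      rw [hf _ (hT p hp).1]
      rw [← Equiv.eq_symm_apply]
      exact Subtype.ext h
  · intro p hp
    obtain ⟨q, hq, rfl⟩ := Multiset.mem_map.1 hp
    simp only
    rw [hfs _ (hT q hq).1]
    exact (hT q hq).2
  · intro l
    exact (hx _ (hmem l)).1
  · intro l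
    exact (hx _ (hmem l)).2.1
  · intro l
    exact (hx _ (hmem l)).2.2.1
  · have h3 : ∀ l, a (I.equivFin.symm l) *
        max (k * (N (I.equivFin.symm l) * a (I.equivFin.symm l))) (d + 3) =
        (fun i : I => k * (N i * a i ^ 2)) (I.equivFin.symm l) := by
      intro l
      rw [max_eq_left (hx _ (hmem l)).2.2.2]
      ring
    simp only [h3]
    rw [Equiv.sum_comp I.equivFin.symm (fun i : I => k * (N i * a i ^ 2)),
      Finset.sum_coe_sort I (fun i => k * (N i * a i ^ 2)), ← Finset.mul_sum]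
    exact Nat.mul_lt_mul_of_pos_left h2 (by omega)
  · rw [Multiset.map_map, Multiset.map_map]
    rfl

end Pool.Agent.Helper91.UC.RGG

end
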