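import Pool.Agent.Helper27.UC.Goals

set_option autoImplicit false

noncomputable section

namespace Pool.Agent.Helper91.UC.G1F

open Polynomial Module Pool.Agent.Helper97.Tate Pool.Agent.Helper27.UC

variable {K : Type} [Field K]

/-- dimensions are preserved by a linear map injective on `W` -/
lemma fr {V V' : Type} [AddCommGroup V] [Module K V] [AddCommGroup V'] [Module K V']
    (f : V →ₗ[K] V') (W A : Submodule K V) (B : Submodule K V')
    (hf : ∀ z ∈ W, f z = 0 → z = 0) (h : ∀ z ∈ W, (z ∈ A ↔ f z ∈ B)) :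
    finrank K (W ⊓ A : Submodule K V) = finrank K (W.map f ⊓ B : Submodule K V') := by
  have h1 : W.map f ⊓ B = LinearMap.range (f.domRestrict (W ⊓ A)) := by
    rw [LinearMap.range_domRestrict]
    ext y
    simp only [Submodule.mem_inf, Submodule.mem_map]
    constructor
    · rintro ⟨⟨z, hz, rfl⟩, hy⟩
      exact ⟨z, ⟨hz, (h z hz).2 hy⟩, rfl⟩
    · rintro ⟨z, ⟨hz, hA⟩, rfl⟩
      exact ⟨⟨z, hz, rfl⟩, (h z hz).1 hA⟩
  rw [h1]
  refine (LinearMap.finrank_range_of_inj ?_).symm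
  rw [← LinearMap.ker_eq_bot, LinearMap.ker_eq_bot']
  intro z hz
  exact Subtype.ext (hf z z.2.1 hz)

theorem t1 (hG : S_G1R) (hB : S_BR) : S_G1F := by
  intro K _ _ d W a b m N hW h1 h2
  obtain ⟨b1, b2, b3, b4, b5⟩ := hB K d
  let f : MvPolynomial (Fin 3) K →ₗ[K] R2 K := (del a b).toLinearMap
  have hf : ∀ z ∈ W, f z = 0 → z = 0 := fun z hz h => b2 a b z (hW hz) h
  have hA : ∀ k, ∀ z ∈ W, (z ∈ Van ![a, b, 1] k ↔ f z ∈ Od k) := fun k z hz => b1 a b k z (hW hz)
  have hfd : FiniteDimensional K W := Submodule.finiteDimensional_of_le hW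
  have hfd' : FiniteDimensional K (W.map f) := inferInstance
  rw [fr f W _ _ hf (hA _)] at h1 h2
  obtain ⟨u, v, huv⟩ := hG K (W.map f) m N hfd' h1 h2
  refine ⟨fun l => ![a + u l, b + v l, 1], ?_⟩
  rw [fr f W _ (⨅ l, (Od m).comap (sh (u l) (v l)).toLinearMap) hf ?_]
  · exact huv
  · intro z hz
    simp only [Submodule.mem_iInf, Submodule.mem_comap]
    refine forall_congr' fun l => ?_
    rw [b1 (a + u l) (b + v l) m z (hW hz), ← b3 (u l) (v l) a b z]
    rfl

theorem t2 (hG : S_G2R) (hB : S_BR) : S_G2F := by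
  intro K _ _ d W a b t hW hmin h1
  obtain ⟨b1, b2, b3, b4, b5⟩ := hB K d
  let f : MvPolynomial (Fin 3) K →ₗ[K] R2 K := (del a b).toLinearMap
  have hf : ∀ z ∈ W, f z = 0 → z = 0 := fun z hz h => b2 a b z (hW hz) h
  have hA : ∀ k, ∀ z ∈ W, (z ∈ Van ![a, b, 1] k ↔ f z ∈ Od k) := fun k z hz => b1 a b k z (hW hz)
  have hfd : FiniteDimensional K W := Submodule.finiteDimensional_of_le hW
  have hfd' : FiniteDimensional K (W.map f) := inferInstance
  rw [fr f W _ _ hf (hA _), fr f W _ _ hf (hA _)] at h1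
  rw [fr f W _ _ hf (hA _), fr f W _ _ hf (hA _), fr f W _ _ hf (hA _)]
  refine hG K (W.map f) t hfd' ?_ h1
  intro u v
  have h3 := hmin (a + u) (b + v)
  rw [fr f W _ _ hf (hA _),
    fr f W (Van ![a + u, b + v, 1] (t + 1)) ((Od (t + 1)).comap (sh u v).toLinearMap) hf ?_] at h3
  · exact h3
  · intro z hz
    rw [Submodule.mem_comap, b1 (a + u) (b + v) (t + 1) z (hW hz), ← b3 u v a b z]
    rfl

end Pool.Agent.Helper91.UC.G1F
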