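import Pool.Agent.Helper27.UC.Goals4
import Pool.Agent.Helper90.UC.GDR

/-!
PROJECT UC (MP_d3128a_ag), packet RGX (helper91).
-/

set_option autoImplicit false

noncomputable section

namespace Pool.Agent.Helper91.UC.RGX

open Pool.Agent.Helper27.UC

variable {V : Finset ℕ}

/-- the rows -/
def ee (V : Finset ℕ) : V ⊕ V ≃ Fin (V.card + V.card) :=
  (Equiv.sumCongr V.equivFin V.equivFin).trans finSumFinEquiv

def aa (V : Finset ℕ) (l : Fin (V.card + V.card)) : ℕ :=
  Sum.elim (fun x : V => 2 * (x : ℕ) + 1) (fun x : V => (x : ℕ) + 1) ((ee V).symm l)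

def NN (V : Finset ℕ) (j s : ℕ → ℕ) (l : Fin (V.card + V.card)) : ℕ :=
  Sum.elim (fun x : V => j x) (fun x : V => s x) ((ee V).symm l)

def TT (V : Finset ℕ) (j s : ℕ → ℕ) : Multiset (Fin (V.card + V.card) × ℕ) :=
  ∑ x : V, Multiset.replicate (j x) (ee V (Sum.inl x), 2 * (x : ℕ)) +
    ∑ x : V, Multiset.replicate (s x) (ee V (Sum.inr x), (x : ℕ))

theorem sum_row (V : Finset ℕ) (F : V ⊕ V → ℕ) :
    ∑ l, F ((ee V).symm l) = ∑ x : V, F (Sum.inl x) + ∑ x : V, F (Sum.inr x) := by
  rw [Equiv.sum_comp (ee V).symm F, Fintype.sum_sum_type]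

theorem map_snd (V : Finset ℕ) (j s : ℕ → ℕ) :
    (TT V j s).map Prod.snd = ∑ x ∈ V, rp (j x) (2 * x) + ∑ x ∈ V, rp (s x) x := by
  have h : ∀ S : Multiset (Fin (V.card + V.card) × ℕ),
      S.map Prod.snd = Multiset.mapAddMonoidHom Prod.snd S := fun _ => rfl
  unfold TT
  rw [h, map_add, map_sum, map_sum]
  simp only [Multiset.coe_mapAddMonoidHom, Multiset.map_replicate]
  rw [Finset.sum_coe_sort V (fun x => Multiset.replicate (j x) (2 * x)),
    Finset.sum_coe_sort V (fun x => Multiset.replicate (s x) x)]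

theorem card_row (V : Finset ℕ) (j s : ℕ → ℕ) (l : Fin (V.card + V.card)) :
    ((TT V j s).filter fun p => p.1 = l).card = NN V j s l := by
  obtain ⟨y, rfl⟩ := (ee V).surjective l
  rw [← Multiset.countP_eq_card_filter]
  have h : ∀ S : Multiset (Fin (V.card + V.card) × ℕ),
      S.countP (fun p => p.1 = ee V y) =
        Multiset.countPAddMonoidHom (fun p : Fin (V.card + V.card) × ℕ => p.1 = ee V y) S :=
    fun _ => rfl
  unfold TT NN
  rw [h, map_add, map_sum, map_sum]
  simp only [Multiset.coe_countPAddMonoidHom, Multiset.countP_eq_card_filter,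
    Equiv.symm_apply_apply]
  have h2 : ∀ (m t : ℕ) (z : V ⊕ V),
      (Multiset.filter (fun p : Fin (V.card + V.card) × ℕ => p.1 = ee V y)
        (Multiset.replicate m (ee V z, t))).card = if z = y then m else 0 := by
    intro m t z
    by_cases hz : z = y
    · rw [if_pos hz, Multiset.filter_eq_self.2, Multiset.card_replicate]
      intro a ha
      rw [Multiset.eq_of_mem_replicate ha, hz]
    · rw [if_neg hz, Multiset.filter_eq_nil.2, Multiset.card_zero]
      intro a ha
      rw [Multiset.eq_of_mem_replicate ha]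
      exact fun h => hz ((ee V).injective h)
  simp only [h2]
  rcases y with y | y
  · simp
  · simp

theorem map_choose (V : Finset ℕ) (j s : ℕ → ℕ) :
    (((TT V j s).map Prod.snd).map fun x => ((x + 1).choose 2)).sum =
      ∑ x ∈ V, (j x * (2 * x + 1).choose 2 + s x * (x + 1).choose 2) := by
  rw [map_snd, Multiset.map_add, Multiset.sum_add, Finset.sum_add_distrib]
  have h : ∀ (g : ℕ → ℕ) (F : ℕ → Multiset ℕ),
      ((∑ x ∈ V, F x).map g).sum = ∑ x ∈ V, ((F x).map g).sum := by
    intro g F
    have h1 : ∀ S : Multiset ℕ, (S.map g).sum =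
        (Multiset.sumAddMonoidHom.comp (Multiset.mapAddMonoidHom g)) S := fun _ => rfl
    rw [h1, map_sum]
    rfl
  rw [h, h]
  simp [Multiset.map_replicate, Multiset.sum_replicate]

theorem t (hC : S_CNV) : S_RGX := by
  intro d k M V j s hV hk hc hx h2 hM
  rw [← map_snd]
  refine Pool.Agent.Helper90.UC.rgT hC k d (TT V j s) (aa V) (NN V j s) M
    (∑ x ∈ V, (j x * (2 * x + 1).choose 2 + s x * (x + 1).choose 2))
    (card_row V j s) ?_ hk (by omega) ?_ ?_ ?_ ?_ (map_choose V j s) hM
  · intro p hp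
    unfold TT at hp
    rw [Multiset.mem_add, Multiset.mem_sum, Multiset.mem_sum] at hp
    rcases hp with ⟨x, _, hx⟩ | ⟨x, _, hx⟩
    · rw [Multiset.eq_of_mem_replicate hx]
      simp [aa]
    · rw [Multiset.eq_of_mem_replicate hx]
      simp [aa]
  · intro l
    unfold aa
    rcases (ee V).symm l with y | y
    · simp
    · simp
  · intro l
    unfold NN
    rcases (ee V).symm l with y | y
    · exact (hx y y.2).1
    · exact (hx y y.2).2.1
  · intro l
    unfold aa
    rcases (ee V).symm l with y | y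
    · exact (hx y y.2).2.2.1
    · refine lt_of_le_of_lt ?_ (hx y y.2).2.2.1
      simp only [Sum.elim_inr]
      exact Nat.mul_le_mul_left _ (by omega)
  · have h3 : ∀ l, aa V l * max (k * (NN V j s l * aa V l)) (d + 3) =
        Sum.elim (fun x : V => k * (j x * (2 * (x : ℕ) + 1) ^ 2))
          (fun x : V => k * (s x * ((x : ℕ) + 1) ^ 2)) ((ee V).symm l) := by
      intro l
      unfold aa NN
      rcases (ee V).symm l with y | y
      · simp only [Sum.elim_inl]
        rw [max_eq_left (hx y y.2).2.2.2.1]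
        ring
      · simp only [Sum.elim_inr]
        rw [max_eq_left (hx y y.2).2.2.2.2]
        ring
    simp only [h3]
    rw [sum_row]
    simp only [Sum.elim_inl, Sum.elim_inr]
    rw [Finset.sum_coe_sort V (fun x => k * (j x * (2 * x + 1) ^ 2)),
      Finset.sum_coe_sort V (fun x => k * (s x * (x + 1) ^ 2)), ← Finset.sum_add_distrib]
    simp only [← mul_add]
    rw [← Finset.mul_sum]
    exact Nat.mul_lt_mul_of_pos_left h2 (by omega)

end Pool.Agent.Helper91.UC.RGX

end
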